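import Pool.Agent.Q237.LR.Stm2

/-! Project LR, job LNG: the long range part is small with large probability. -/

set_option autoImplicit false

namespace Pool.Agent.Q142.LR

open MeasureTheory ProbabilityTheory Set H10PL Pool.Agent.Q237.LR2

section

variable {d : ℕ} (T0 : (Fin d → ℤ) → (Fin d → ℤ) → ℝ) (κ : (Fin d → ℤ) → ℝ)

theorem lng_fa_meas (ρ η r : ℝ) (Λ : Finset (Fin d → ℤ)) (x y : Fin d → ℤ) :
    Measurable fun q : (ℝ × ((Fin d → ℤ) → ℝ)) × (Sym2 (Fin d → ℤ) → Bool) =>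
      fa T0 κ ρ η Λ r x (q.1.1, q.1.2, q.2) y := by
  have hsg : Measurable sg := measurable_of_finite _
  unfold fa
  split_ifs with hx hy
  · refine Measurable.const_mul ?_ _
    refine Complex.measurable_re.comp ?_
    refine measurable_Gm
      (fun q : (ℝ × ((Fin d → ℤ) → ℝ)) × (Sym2 (Fin d → ℤ) → Bool) => Am T0 κ ρ Λ q.2)
      ?_ (fun q => fun i : Λ => q.1.2 i) ?_ (fun q => q.1.1) ?_ η _ _
    · intro i j
      unfold Am Kr Kf
      split_ifs
      · refine measurable_const.add (Measurable.mul_const ?_ _)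
        exact hsg.comp ((measurable_pi_apply _).comp measurable_snd)
      · exact measurable_const
    · intro i
      exact (measurable_pi_apply _).comp (measurable_snd.comp measurable_fst)
    · exact measurable_fst.comp measurable_fst
  · exact measurable_const
  · exact measurable_const

theorem lng_fa_sq {ρ0 b : ℝ} (h : Adm T0 κ ρ0 b) {ρ η r : ℝ} (hη : 0 < η) (hr : 0 < r)
    (Λ : Finset (Fin d → ℤ)) (x : Fin d → ℤ) (hx : x ∈ Λ) (p : Pt d) :
    ∑ y ∈ Λ, fa T0 κ ρ η Λ r x p y ^ 2 ≤ 1 / η ^ 2 := by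
  have h1 : ∑ i, ‖Gm (Am T0 κ ρ Λ p.2.2) (fun i : Λ => p.2.1 i) p.1 η i ⟨x, hx⟩‖ ^ 2 ≤
      1 / η ^ 2 := by
    rw [ward _ (Am_symm h ρ Λ p.2.2) _ _ hη]
    calc Pm (Am T0 κ ρ Λ p.2.2) (fun i : Λ => p.2.1 i) p.1 η ⟨x, hx⟩ ⟨x, hx⟩ / η
        ≤ (1 / η) / η := div_le_div_of_nonneg_right
          (Pm_diag_le _ (Am_symm h ρ Λ p.2.2) _ _ hη _) hη.le
      _ = 1 / η ^ 2 := by field_simp
  refine le_trans ?_ h1
  rw [← Finset.sum_coe_sort Λ]
  refine Finset.sum_le_sum fun i _ => ?_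
  unfold fa
  rw [dif_pos hx, dif_pos i.2, mul_pow]
  have h3 : 0 ≤ max 0 (1 - ‖(i : Fin d → ℤ) - x‖ / r) := le_max_left _ _
  have h4 : max 0 (1 - ‖(i : Fin d → ℤ) - x‖ / r) ≤ 1 := by
    refine max_le zero_le_one ?_
    have : 0 ≤ ‖(i : Fin d → ℤ) - x‖ / r := by positivity
    linarith
  have h5 : max 0 (1 - ‖(i : Fin d → ℤ) - x‖ / r) ^ 2 ≤ 1 := pow_le_one₀ h3 h4
  have h6 := re_sq_le (Gm (Am T0 κ ρ Λ p.2.2) (fun i : Λ => p.2.1 i) p.1 η
    ⟨(i : Fin d → ℤ), i.2⟩ ⟨x, hx⟩)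
  have h7 := sq_nonneg (Gm (Am T0 κ ρ Λ p.2.2) (fun i : Λ => p.2.1 i) p.1 η
    ⟨(i : Fin d → ℤ), i.2⟩ ⟨x, hx⟩).re
  have h8 : ‖Gm (Am T0 κ ρ Λ p.2.2) (fun i : Λ => p.2.1 i) p.1 η
    ⟨(i : Fin d → ℤ), i.2⟩ ⟨x, hx⟩‖ ^ 2 = ‖Gm (Am T0 κ ρ Λ p.2.2) (fun i : Λ => p.2.1 i) p.1 η
    i ⟨x, hx⟩‖ ^ 2 := rfl
  rw [h8] at h6
  refine le_trans ?_ h6
  exact mul_le_of_le_one_left h7 h5

/-- the long range residual as an extended nonnegative number -/
noncomputable def lngL (ρ η r : ℝ) (Λ : Finset (Fin d → ℤ)) (x : Fin d → ℤ)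
    (q : (ℝ × ((Fin d → ℤ) → ℝ)) × (Sym2 (Fin d → ℤ) → Bool)) : ENNReal :=
  ∑' y, ENNReal.ofReal ((∑ w ∈ Λ, (Kf T0 κ q.2 y w - Kr T0 κ ρ q.2 y w) *
    fa T0 κ ρ η Λ r x (q.1.1, q.1.2, q.2) w) ^ 2)

theorem lngL_meas (ρ η r : ℝ) (Λ : Finset (Fin d → ℤ)) (x : Fin d → ℤ) :
    Measurable (lngL T0 κ ρ η r Λ x) := by
  have hsg : Measurable sg := measurable_of_finite _
  unfold lngL
  refine Measurable.tsum fun y => ?_
  refine ENNReal.measurable_ofReal.comp ?_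
  refine Measurable.pow_const ?_ 2
  refine Finset.measurable_sum _ fun w _ => ?_
  refine Measurable.mul ?_ (lng_fa_meas T0 κ ρ η r Λ x w)
  have hK : Measurable fun q : (ℝ × ((Fin d → ℤ) → ℝ)) × (Sym2 (Fin d → ℤ) → Bool) =>
      Kf T0 κ q.2 y w := by
    unfold Kf
    refine measurable_const.add (Measurable.mul_const ?_ _)
    exact hsg.comp ((measurable_pi_apply _).comp measurable_snd)
  refine hK.sub ?_
  unfold Kr
  split_ifs
  · exact hK
  · exact measurable_const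

end

theorem lng : S_LNG := by
  intro d T0 κ ρ0 b ρ r η Λ μ K c x hμ h hρ hr hη hK hc hx
  unfold mE Rs
  set μE := (volume.restrict (Icc (-K) K) : Measure ℝ) with hμE
  set tl := (∑' y : Fin d → ℤ, if ρ < ‖y‖ then κ y ^ 2 else 0) with htl
  have htl0 : 0 ≤ tl := tsum_nonneg fun y => by
    split_ifs
    · exact sq_nonneg _
    · exact le_rfl
  set L := lngL T0 κ ρ η r Λ x with hL
  have hLm : Measurable L := lngL_meas T0 κ ρ η r Λ x
  have hmp1 : MeasurePreserving (MeasurableEquiv.prodAssoc.symm :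
      ℝ × (((Fin d → ℤ) → ℝ) × (Sym2 (Fin d → ℤ) → Bool)) → _)
      (μE.prod ((PVg d μ).prod (Ps d))) ((μE.prod (PVg d μ)).prod (Ps d)) :=
    (measurePreserving_prodAssoc μE (PVg d μ) (Ps d)).symm
  set D : Set ((ℝ × ((Fin d → ℤ) → ℝ)) × (Sym2 (Fin d → ℤ) → Bool)) :=
    {q | ENNReal.ofReal c ≤ L q} with hD
  have hDm : MeasurableSet D := measurableSet_le measurable_const hLm
  have hsub : {p : ℝ × (((Fin d → ℤ) → ℝ) × (Sym2 (Fin d → ℤ) → Bool)) |
      ¬ (∑' y, (∑ w ∈ Λ, (Kf T0 κ p.2.2 y w - Kr T0 κ ρ p.2.2 y w) *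
        fa T0 κ ρ η Λ r x p w) ^ 2) ≤ c} ⊆
      (MeasurableEquiv.prodAssoc.symm :
        ℝ × (((Fin d → ℤ) → ℝ) × (Sym2 (Fin d → ℤ) → Bool)) → _) ⁻¹' D := by
    intro p hp
    have hp' := not_le.1 hp
    show ENNReal.ofReal c ≤ L ((p.1, p.2.1), p.2.2)
    have hsum : Summable fun y => (∑ w ∈ Λ, (Kf T0 κ p.2.2 y w - Kr T0 κ ρ p.2.2 y w) *
        fa T0 κ ρ η Λ r x p w) ^ 2 := by
      by_contra hns
      rw [tsum_eq_zero_of_not_summable hns] at hp'
      linarith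
    have h1 : L ((p.1, p.2.1), p.2.2) = ENNReal.ofReal (∑' y, (∑ w ∈ Λ,
        (Kf T0 κ p.2.2 y w - Kr T0 κ ρ p.2.2 y w) *
        fa T0 κ ρ η Λ r x p w) ^ 2) := by
      rw [ENNReal.ofReal_tsum_of_nonneg (fun y => sq_nonneg _) hsum]
      rfl
    rw [h1]
    exact ENNReal.ofReal_le_ofReal hp'.le
  refine le_trans (measure_mono hsub) ?_
  rw [hmp1.measure_preimage hDm.nullMeasurableSet, Measure.prod_apply hDm]
  have hc' : ENNReal.ofReal c ≠ 0 := by
    simpa using hc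
  have hpt : ∀ q : ℝ × ((Fin d → ℤ) → ℝ), (Ps d) (Prod.mk q ⁻¹' D) ≤
      ENNReal.ofReal (tl * (1 / η ^ 2) / c) := by
    intro q
    have hfm : ∀ y, Measurable fun s : Sym2 (Fin d → ℤ) → Bool =>
        fa T0 κ ρ η Λ r x (q.1, q.2, s) y := by
      intro y
      have h1 := lng_fa_meas (d := d) T0 κ ρ η r Λ x y
      have h2 : Measurable fun s : Sym2 (Fin d → ℤ) → Bool => (q, s) := measurable_prodMk_left
      have h3 := Measurable.comp h1 h2
      simp only [Function.comp_def] at h3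
      exact h3
    have h1 := long_exp h hρ Λ (fun s => fa T0 κ ρ η Λ r x (q.1, q.2, s)) hfm (by
        intro s y w t hyw
        funext z
        show fa T0 κ ρ η Λ r x (q.1, q.2, _) z = _
        unfold fa
        dsimp only
        rw [Am_update ρ Λ s y w t hyw]) (N := 1 / η ^ 2)
      (fun s => lng_fa_sq T0 κ h hη hr Λ x hx (q.1, q.2, s))
    have h2 : (Ps d) (Prod.mk q ⁻¹' D) ≤ (∫⁻ s, L (q, s) ∂(Ps d)) / ENNReal.ofReal c := by
      have := meas_ge_le_lintegral_div (μ := Ps d) (f := fun s => L (q, s))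
        ((hLm.comp measurable_prodMk_left).aemeasurable) hc' ENNReal.ofReal_ne_top
      exact this
    refine h2.trans ?_
    rw [ENNReal.ofReal_div_of_pos hc]
    gcongr
    exact h1
  calc ∫⁻ q, (Ps d) (Prod.mk q ⁻¹' D) ∂(μE.prod (PVg d μ))
      ≤ ∫⁻ _q, ENNReal.ofReal (tl * (1 / η ^ 2) / c) ∂(μE.prod (PVg d μ)) := lintegral_mono hpt
    _ = ENNReal.ofReal (tl * (1 / η ^ 2) / c) * (μE.prod (PVg d μ)) univ := by
        rw [lintegral_const]
    _ = ENNReal.ofReal (tl * (1 / η ^ 2) / c) * ENNReal.ofReal (2 * K) := by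
        congr 1
        rw [← univ_prod_univ, Measure.prod_prod, measure_univ (μ := PVg d μ), mul_one, hμE,
          Measure.restrict_apply_univ, Real.volume_Icc]
        congr 1
        ring
    _ = ENNReal.ofReal (2 * K * (tl * (1 / η ^ 2) / c)) := by
        rw [← ENNReal.ofReal_mul (by positivity), mul_comm]

end Pool.Agent.Q142.LR
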