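import Pool.Agent.Q237.LR.Stm2

/-! Project LR, job TRI: error of the cut-off trial function. -/

set_option autoImplicit false

namespace Pool.Agent.Q142.LR

open MeasureTheory ProbabilityTheory Set H10PL Pool.Agent.Q237.LR2

theorem tri : S_TRI := by
  intro d T0 κ ρ0 b s V E x ρ r T Λ u f h hρ hρ0 hr hΛ hf hT0 hT
  classical
  set χ : (Fin d → ℤ) → ℝ := fun y => max 0 (1 - ‖y - x‖ / r) with hχ
  have hχ0 : ∀ y, 0 ≤ χ y := fun y => le_max_left _ _
  have hχ1 : ∀ y, χ y ≤ 1 := fun y => max_le zero_le_one (by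
    have : 0 ≤ ‖y - x‖ / r := div_nonneg (norm_nonneg _) hr.le
    linarith)
  have hχl : ∀ y w, |χ w - χ y| ≤ ‖y - w‖ / r := by
    intro y w
    have h1 : |χ w - χ y| ≤ |(1 - ‖w - x‖ / r) - (1 - ‖y - x‖ / r)| := by
      have := abs_max_sub_max_le_abs (1 - ‖w - x‖ / r) (1 - ‖y - x‖ / r) 0
      simpa [hχ, max_comm] using this
    have h2 : (1 - ‖w - x‖ / r) - (1 - ‖y - x‖ / r) = (‖y - x‖ - ‖w - x‖) / r := by ring
    rw [h2, abs_div, abs_of_pos hr] at h1
    refine h1.trans ?_
    refine div_le_div_of_nonneg_right ?_ hr.le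
    have := abs_norm_sub_norm_le (y - x) (w - x)
    simpa using this
  -- the sum over the support is the sum over Λ
  have hsupp : f.support ⊆ Λ := by
    intro y hy
    by_contra hn
    have := hf y
    rw [if_neg hn] at this
    exact (Finsupp.mem_support_iff.mp hy) this
  have hsum : ∀ y, ∑ w ∈ f.support, Kf T0 κ s y w * f w = ∑ w ∈ Λ, Kf T0 κ s y w * f w := by
    intro y
    refine Finset.sum_subset hsupp fun w _ hw => ?_
    rw [Finsupp.notMem_support_iff.mp hw, mul_zero]
  set A : (Fin d → ℤ) → ℝ := fun y => if y ∈ Λ then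
    χ y * ((∑ w ∈ Λ, Kr T0 κ ρ s y w * u w) + (V y - E) * u y) else 0 with hA
  set B : (Fin d → ℤ) → ℝ := fun y => if y ∈ Λ then
    ∑ w ∈ Λ, (Kr T0 κ ρ s y w * (χ w - χ y)) * u w else 0 with hB
  set C : (Fin d → ℤ) → ℝ := fun y =>
    ∑ w ∈ Λ, (Kf T0 κ s y w - Kr T0 κ ρ s y w) * f w with hC
  have hdec : ∀ y, appl T0 κ s V E f y = (A y + B y) + C y := by
    intro y
    unfold appl
    rw [hsum y]
    have h1 : ∑ w ∈ Λ, Kf T0 κ s y w * f w = ∑ w ∈ Λ, Kr T0 κ ρ s y w * f w + C y := by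
      rw [hC, ← Finset.sum_add_distrib]
      exact Finset.sum_congr rfl fun w _ => by ring
    rw [h1]
    by_cases hy : y ∈ Λ
    · have h2 : ∑ w ∈ Λ, Kr T0 κ ρ s y w * f w =
          χ y * (∑ w ∈ Λ, Kr T0 κ ρ s y w * u w) + B y := by
        simp only [hB, if_pos hy]
        rw [Finset.mul_sum, ← Finset.sum_add_distrib]
        refine Finset.sum_congr rfl fun w hw => ?_
        rw [hf w, if_pos hw]
        simp only [hχ]
        ring
      rw [h2, hf y, if_pos hy]
      simp only [hA, if_pos hy]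
      simp only [hχ]
      ring
    · have h2 : ∑ w ∈ Λ, Kr T0 κ ρ s y w * f w = 0 := by
        refine Finset.sum_eq_zero fun w hw => ?_
        by_contra hne
        have h3 : Kr T0 κ ρ s y w ≠ 0 := left_ne_zero_of_mul hne
        have h4 : f w ≠ 0 := right_ne_zero_of_mul hne
        have h5 : ‖y - w‖ ≤ ρ := by
          by_contra hn
          exact h3 (by unfold Kr; rw [if_neg hn])
        have h6 : ‖w - x‖ ≤ r := by
          by_contra hn
          refine h4 ?_
          rw [hf w, if_pos hw]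
          have : max 0 (1 - ‖w - x‖ / r) = 0 := by
            refine max_eq_left ?_
            have : 1 ≤ ‖w - x‖ / r := by
              rw [le_div_iff₀ hr]; linarith [not_le.mp hn]
            linarith
          rw [this, zero_mul]
        refine hy (hΛ y ?_)
        calc ‖y - x‖ = ‖(y - w) + (w - x)‖ := by congr 1; abel
          _ ≤ ‖y - w‖ + ‖w - x‖ := norm_add_le _ _
          _ ≤ r + ρ := by linarith
      rw [h2, hf y, if_neg hy]
      simp only [hA, hB, if_neg hy]
      ring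
  have hBs : Summable fun y => B y ^ 2 := by
    refine summable_of_ne_finset_zero (s := Λ) fun y hy => ?_
    simp only [hB, if_neg hy]; norm_num
  have hCs : Summable fun y => C y ^ 2 := trial_long_sq_summable h hρ s Λ f
  have hBC := trial_l2_add_le hBs hCs
  have hfun : (fun y => (appl T0 κ s V E f y - (if y ∈ Λ then max 0 (1 - ‖y - x‖ / r) *
      ((∑ w ∈ Λ, Kr T0 κ ρ s y w * u w) + (V y - E) * u y) else 0)) ^ 2) =
      fun y => (B y + C y) ^ 2 := by
    funext y
    have h1 : (if y ∈ Λ then max 0 (1 - ‖y - x‖ / r) *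
      ((∑ w ∈ Λ, Kr T0 κ ρ s y w * u w) + (V y - E) * u y) else 0) = A y := rfl
    rw [h1, hdec y]
    congr 1
    ring
  rw [hfun]
  refine ⟨hBC.1, ?_⟩
  have hB2 : Real.sqrt (∑' y, B y ^ 2) ≤ (ρ / r) * T * Real.sqrt (∑ y ∈ Λ, u y ^ 2) := by
    rw [tsum_eq_sum (s := Λ) (fun y hy => by simp only [hB, if_neg hy]; norm_num)]
    have h1 : ∑ y ∈ Λ, B y ^ 2 =
        ∑ y ∈ Λ, (∑ w ∈ Λ, (Kr T0 κ ρ s y w * (χ w - χ y)) * u w) ^ 2 := by
      refine Finset.sum_congr rfl fun y hy => ?_
      simp only [hB, if_pos hy]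
    rw [h1]
    refine trial_schur_test Λ (fun y w => Kr T0 κ ρ s y w) (fun y w => by
      rw [trial_Kr_symm h ρ s y w]) hT0 (div_nonneg hρ0 hr.le) hT _ ?_ u
    intro y w
    rw [abs_mul, mul_comm (ρ / r)]
    by_cases hc : ‖y - w‖ ≤ ρ
    · refine mul_le_mul_of_nonneg_left ?_ (abs_nonneg _)
      exact (hχl y w).trans (div_le_div_of_nonneg_right hc hr.le)
    · have : Kr T0 κ ρ s y w = 0 := by unfold Kr; rw [if_neg hc]
      rw [this]; simp
  exact hBC.2.trans (add_le_add hB2 le_rfl)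

end Pool.Agent.Q142.LR
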